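import Pool.Agent.Work.MP_959bfa_wn.Interface

/-!
MP_959bfa_co: derandomised sampling, Mirsky, and a sampling bound for families of bounded degree.
-/

namespace Wn

open Finset

namespace H63

theorem Cr_trans {ι : Type} {R : ι → Bx} {i j k : ι} (h : Cr R i j) (h' : Cr R j k) :
    Cr R i k :=
  ⟨h'.1.trans h.1, h.2.1.trans h'.2.1, h.2.2.1.trans h'.2.2.1, h'.2.2.2.trans h.2.2.2⟩

theorem Cr_irr {ι : Type} {R : ι → Bx} (i : ι) : ¬ Cr R i i := fun h => lt_irrefl _ h.1

theorem Dj_symm {R S : Bx} (h : Dj R S) : Dj S R := fun x y hxy => h x y ⟨hxy.2, hxy.1⟩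

theorem Nb_symm {ι : Type} {R : ι → Bx} {i j : ι} (h : Nb R i j) : Nb R j i :=
  ⟨h.1.symm, fun h' => h.2.1 (Dj_symm h'), h.2.2.2, h.2.2.1⟩

/-- conditional expectations for a multilinear polynomial -/
theorem derand {ι : Type} [DecidableEq ι] (p : ℝ) (hp0 : 0 ≤ p) (hp1 : p ≤ 1) (B : Finset ι) :
    ∀ c : Finset ι → ℝ, ∃ S, S ⊆ B ∧
      ∑ A ∈ B.powerset, c A * p ^ A.card ≤ ∑ A ∈ S.powerset, c A := by
  induction B using Finset.induction_on with
  | empty =>
    intro c
    exact ⟨∅, Finset.Subset.refl _, by simp⟩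
  | insert b B hb ih =>
    intro c
    have h1 : ∑ A ∈ (insert b B).powerset, c A * p ^ A.card =
        (1 - p) * ∑ A ∈ B.powerset, c A * p ^ A.card +
          p * ∑ A ∈ B.powerset, (c A + c (insert b A)) * p ^ A.card := by
      rw [Finset.sum_powerset_insert hb, Finset.mul_sum, Finset.mul_sum,
        ← Finset.sum_add_distrib, ← Finset.sum_add_distrib]
      apply Finset.sum_congr rfl
      intro A hA
      have hbA : b ∉ A := fun h => hb (Finset.mem_powerset.1 hA h)
      rw [Finset.card_insert_of_notMem hbA, pow_succ]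
      ring
    rcases le_total (∑ A ∈ B.powerset, (c A + c (insert b A)) * p ^ A.card)
      (∑ A ∈ B.powerset, c A * p ^ A.card) with h | h
    · obtain ⟨S, hS, h2⟩ := ih c
      refine ⟨S, hS.trans (Finset.subset_insert _ _), ?_⟩
      rw [h1]
      nlinarith
    · obtain ⟨S, hS, h2⟩ := ih (fun A => c A + c (insert b A))
      have hbS : b ∉ S := fun h => hb (hS h)
      refine ⟨insert b S, Finset.insert_subset_insert _ hS, ?_⟩
      rw [h1, Finset.sum_powerset_insert hbS, ← Finset.sum_add_distrib]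
      nlinarith

/-- sampling with deletion -/
theorem samp {ι : Type} [DecidableEq ι] (B : Finset ι) (P : Finset (ι × ι))
    (K : Finset (Finset ι)) (q T : ℕ) (hq : 1 ≤ q) (hT : 1 ≤ T)
    (hP : ∀ a ∈ P, a.1 ∈ B ∧ a.2 ∈ B ∧ a.1 ≠ a.2) (hK : ∀ A ∈ K, A ⊆ B ∧ A.card = T)
    (h1 : 4 * P.card ≤ q * B.card) (h2 : 4 * K.card * q ≤ q ^ T * B.card) :
    ∃ S, S ⊆ B ∧ B.card ≤ 2 * q * S.card ∧ (∀ a ∈ P, ¬ (a.1 ∈ S ∧ a.2 ∈ S)) ∧
      ∀ A ∈ K, ¬ A ⊆ S := by
  have hq0 : (0 : ℝ) < q := by exact_mod_cast hq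
  obtain ⟨p, hp⟩ : ∃ p : ℝ, p = 1 / q := ⟨_, rfl⟩
  have hp0 : 0 ≤ p := by rw [hp]; positivity
  have hp1 : p ≤ 1 := by
    rw [hp, div_le_one hq0]
    exact_mod_cast hq
  obtain ⟨c, hc⟩ : ∃ c : Finset ι → ℝ, ∀ A, c A = (if A.card = 1 then 1 else 0) -
      (∑ a ∈ P, (if A = {a.1, a.2} then 1 else 0)) - ∑ D ∈ K, (if A = D then 1 else 0) :=
    ⟨_, fun _ => rfl⟩
  have key : ∀ (p : ℝ) (S : Finset ι), ∑ A ∈ S.powerset, c A * p ^ A.card =
      S.card * p - ((P.filter fun a => a.1 ∈ S ∧ a.2 ∈ S).card : ℝ) * p ^ 2 -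
        ((K.filter fun D => D ⊆ S).card : ℝ) * p ^ T := by
    intro p S
    have e1 : ∑ A ∈ S.powerset, (if A.card = 1 then (1 : ℝ) else 0) * p ^ A.card =
        S.card * p := by
      have : ∀ A ∈ S.powerset, (if A.card = 1 then (1 : ℝ) else 0) * p ^ A.card =
          if A.card = 1 then p else 0 := by
        intro A _
        split_ifs with h
        · rw [h]; ring
        · ring
      rw [Finset.sum_congr rfl this, ← Finset.sum_filter, Finset.sum_const,
        ← Finset.powersetCard_eq_filter, Finset.card_powersetCard, Nat.choose_one_right,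
        nsmul_eq_mul]
    have e2 : ∑ A ∈ S.powerset, (∑ a ∈ P, (if A = {a.1, a.2} then (1 : ℝ) else 0)) * p ^ A.card =
        ((P.filter fun a => a.1 ∈ S ∧ a.2 ∈ S).card : ℝ) * p ^ 2 := by
      have : ∀ A ∈ S.powerset, (∑ a ∈ P, (if A = {a.1, a.2} then (1 : ℝ) else 0)) * p ^ A.card =
          ∑ a ∈ P, (if A = {a.1, a.2} then p ^ 2 else 0) := by
        intro A _
        rw [Finset.sum_mul]
        apply Finset.sum_congr rfl
        intro a ha
        split_ifs with h
        · rw [h, Finset.card_pair (hP a ha).2.2]; ring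
        · ring
      rw [Finset.sum_congr rfl this, Finset.sum_comm, ← Finset.sum_filter_add_sum_filter_not P
        (fun a => a.1 ∈ S ∧ a.2 ∈ S)]
      have f1 : ∀ a ∈ P.filter (fun a => a.1 ∈ S ∧ a.2 ∈ S),
          ∑ A ∈ S.powerset, (if A = {a.1, a.2} then p ^ 2 else 0) = p ^ 2 := by
        intro a ha
        rw [Finset.sum_ite_eq' S.powerset ({a.1, a.2} : Finset ι) (fun _ => p ^ 2), if_pos]
        rw [Finset.mem_powerset]
        intro z hz
        rw [Finset.mem_insert, Finset.mem_singleton] at hz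
        rcases hz with rfl | rfl
        · exact (Finset.mem_filter.1 ha).2.1
        · exact (Finset.mem_filter.1 ha).2.2
      have f2 : ∀ a ∈ P.filter (fun a => ¬ (a.1 ∈ S ∧ a.2 ∈ S)),
          ∑ A ∈ S.powerset, (if A = {a.1, a.2} then p ^ 2 else 0) = 0 := by
        intro a ha
        rw [Finset.sum_ite_eq' S.powerset ({a.1, a.2} : Finset ι) (fun _ => p ^ 2), if_neg]
        rw [Finset.mem_powerset]
        intro h
        exact (Finset.mem_filter.1 ha).2 ⟨h (by simp), h (by simp)⟩
      rw [Finset.sum_congr rfl f1, Finset.sum_congr rfl f2, Finset.sum_const, nsmul_eq_mul]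
      simp
    have e3 : ∑ A ∈ S.powerset, (∑ D ∈ K, (if A = D then (1 : ℝ) else 0)) * p ^ A.card =
        ((K.filter fun D => D ⊆ S).card : ℝ) * p ^ T := by
      have : ∀ A ∈ S.powerset, (∑ D ∈ K, (if A = D then (1 : ℝ) else 0)) * p ^ A.card =
          ∑ D ∈ K, (if A = D then p ^ T else 0) := by
        intro A _
        rw [Finset.sum_mul]
        apply Finset.sum_congr rfl
        intro D hD
        split_ifs with h
        · rw [h, (hK D hD).2]; ring
        · ring
      rw [Finset.sum_congr rfl this, Finset.sum_comm, Finset.sum_congr rfl (fun D _ =>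
        Finset.sum_ite_eq' S.powerset D (fun _ => p ^ T)), ← Finset.sum_filter,
        Finset.sum_const, nsmul_eq_mul]
      simp only [Finset.mem_powerset]
    rw [← e1, ← e2, ← e3, ← Finset.sum_sub_distrib, ← Finset.sum_sub_distrib]
    apply Finset.sum_congr rfl
    intro A _
    rw [hc A]
    ring
  obtain ⟨S, hS, hle⟩ := derand p hp0 hp1 B c
  have hSv : ∑ A ∈ S.powerset, c A = S.card -
      ((P.filter fun a => a.1 ∈ S ∧ a.2 ∈ S).card : ℝ) -
        ((K.filter fun D => D ⊆ S).card : ℝ) := by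
    have := key 1 S
    simp only [one_pow, mul_one] at this
    exact this
  rw [key p B, hSv] at hle
  have hPB : (P.filter fun a => a.1 ∈ B ∧ a.2 ∈ B) = P :=
    Finset.filter_true_of_mem (fun a ha => ⟨(hP a ha).1, (hP a ha).2.1⟩)
  have hKB : (K.filter fun D => D ⊆ B) = K := Finset.filter_true_of_mem (fun D hD => (hK D hD).1)
  rw [hPB, hKB] at hle
  -- numeric part
  have hpq : p * q = 1 := by rw [hp]; field_simp
  have g1 : (P.card : ℝ) * p ^ 2 ≤ B.card * p / 4 := by
    have : (4 : ℝ) * P.card ≤ q * B.card := by exact_mod_cast h1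
    have h3 : (P.card : ℝ) * p ^ 2 * 4 ≤ (q * B.card) * p ^ 2 := by
      nlinarith [sq_nonneg p]
    have h4 : ((q : ℝ) * B.card) * p ^ 2 = B.card * p := by
      calc ((q : ℝ) * B.card) * p ^ 2 = (p * q) * (B.card * p) := by ring
        _ = B.card * p := by rw [hpq, one_mul]
    linarith
  have g2 : (K.card : ℝ) * p ^ T ≤ B.card * p / 4 := by
    have h0 : (4 : ℝ) * K.card * q ≤ q ^ T * B.card := by exact_mod_cast h2
    have hpT : 0 ≤ p ^ T * p := by positivity
    have h3 : ((4 : ℝ) * K.card * q) * (p ^ T * p) ≤ (q ^ T * B.card) * (p ^ T * p) :=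
      mul_le_mul_of_nonneg_right h0 hpT
    have h4 : ((q : ℝ) ^ T * B.card) * (p ^ T * p) = B.card * p := by
      calc ((q : ℝ) ^ T * B.card) * (p ^ T * p) = (p * q) ^ T * (B.card * p) := by
            rw [mul_pow]; ring
        _ = B.card * p := by rw [hpq, one_pow, one_mul]
    have h5 : ((4 : ℝ) * K.card * q) * (p ^ T * p) = 4 * (K.card * p ^ T) := by
      calc ((4 : ℝ) * K.card * q) * (p ^ T * p) = (p * q) * (4 * (K.card * p ^ T)) := by ring
        _ = 4 * (K.card * p ^ T) := by rw [hpq, one_mul]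
    linarith
  -- deletion
  have hpk0 : ∀ D : Finset ι, ∃ E : Finset ι, D.Nonempty → (E ⊆ D ∧ E.card = 1) := by
    intro D
    by_cases hD : D.Nonempty
    · obtain ⟨z, hz⟩ := hD
      exact ⟨{z}, fun _ => ⟨Finset.singleton_subset_iff.2 hz, Finset.card_singleton _⟩⟩
    · exact ⟨∅, fun h => absurd h hD⟩
  choose pk hpk using hpk0
  let D1 : Finset ι := (P.filter fun a => a.1 ∈ S ∧ a.2 ∈ S).image Prod.fst
  let D2 : Finset ι := (K.filter fun D => D ⊆ S).biUnion pk
  refine ⟨S \ (D1 ∪ D2), Finset.sdiff_subset.trans hS, ?_, ?_, ?_⟩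
  · have c1 : D1.card ≤ (P.filter fun a => a.1 ∈ S ∧ a.2 ∈ S).card := Finset.card_image_le
    have c2 : D2.card ≤ (K.filter fun D => D ⊆ S).card := by
      refine Finset.card_biUnion_le.trans ?_
      rw [Finset.card_eq_sum_ones]
      apply Finset.sum_le_sum
      intro D hD
      have hD' := (Finset.mem_filter.1 hD).1
      have : D.Nonempty := by
        rw [← Finset.card_pos, (hK D hD').2]
        omega
      rw [(hpk D this).2]
    have c3 : S.card ≤ (S \ (D1 ∪ D2)).card + (D1.card + D2.card) := by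
      have := Finset.card_le_card (Finset.subset_union_left (s₁ := S) (s₂ := D1 ∪ D2))
      have h3 : S ∪ (D1 ∪ D2) = (S \ (D1 ∪ D2)) ∪ (D1 ∪ D2) := by
        rw [Finset.sdiff_union_self_eq_union]
      rw [h3] at this
      have h4 := Finset.card_union_le (S \ (D1 ∪ D2)) (D1 ∪ D2)
      have h5 := Finset.card_union_le D1 D2
      omega
    have c4 : (S.card : ℝ) ≤ (S \ (D1 ∪ D2)).card +
        ((P.filter fun a => a.1 ∈ S ∧ a.2 ∈ S).card + (K.filter fun D => D ⊆ S).card) := by
      have : S.card ≤ (S \ (D1 ∪ D2)).card +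
        ((P.filter fun a => a.1 ∈ S ∧ a.2 ∈ S).card + (K.filter fun D => D ⊆ S).card) := by
        omega
      exact_mod_cast this
    have c5 : (B.card : ℝ) * p / 2 ≤ (S \ (D1 ∪ D2)).card := by linarith
    have c6 : (B.card : ℝ) ≤ 2 * q * (S \ (D1 ∪ D2)).card := by
      have h6 : (B.card : ℝ) = 2 * q * (B.card * p / 2) := by
        calc (B.card : ℝ) = (p * q) * B.card := by rw [hpq, one_mul]
          _ = 2 * q * (B.card * p / 2) := by ring
      rw [h6]
      exact mul_le_mul_of_nonneg_left c5 (by positivity)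
    exact_mod_cast c6
  · rintro a ha ⟨ha1, ha2⟩
    rw [Finset.mem_sdiff] at ha1 ha2
    apply ha1.2
    rw [Finset.mem_union]
    left
    exact Finset.mem_image.2 ⟨a, Finset.mem_filter.2 ⟨ha, ha1.1, ha2.1⟩, rfl⟩
  · intro A hA hAS
    have hne : A.Nonempty := by
      rw [← Finset.card_pos, (hK A hA).2]
      omega
    have h3 := hpk A hne
    have h4 : (pk A).Nonempty := by
      rw [← Finset.card_pos, h3.2]
      norm_num
    obtain ⟨z, hz⟩ := h4
    have h5 := hAS (h3.1 hz)
    rw [Finset.mem_sdiff] at h5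
    apply h5.2
    rw [Finset.mem_union]
    right
    exact Finset.mem_biUnion.2 ⟨A, Finset.mem_filter.2 ⟨hA, fun y hy =>
      (Finset.mem_sdiff.1 (hAS hy)).1⟩, hz⟩

/-- Mirsky: no `T` pairwise comparable elements gives a large antichain -/
theorem mirsky {ι : Type} [DecidableEq ι] (r : ι → ι → Prop) (hirr : ∀ a, ¬ r a a)
    (htr : ∀ a b c, r a b → r b c → r a c) : ∀ (T : ℕ) (S : Finset ι),
    (¬ ∃ K, K ⊆ S ∧ K.card = T ∧ ∀ a ∈ K, ∀ b ∈ K, a ≠ b → r a b ∨ r b a) →
    ∃ A, A ⊆ S ∧ S.card ≤ T * A.card ∧ ∀ a ∈ A, ∀ b ∈ A, ¬ r a b := by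
  classical
  intro T
  induction T with
  | zero =>
    intro S h
    exact absurd ⟨∅, Finset.empty_subset _, rfl, by simp⟩ h
  | succ T ih =>
    intro S h
    by_cases hS : S.Nonempty
    swap
    · rw [Finset.not_nonempty_iff_eq_empty] at hS
      exact ⟨∅, Finset.empty_subset _, by rw [hS]; simp, by simp⟩
    let M : Finset ι := S.filter (fun a => ∀ b ∈ S, ¬ r b a)
    have hM : ∀ a ∈ M, ∀ b ∈ M, ¬ r a b := fun a ha b hb =>
      (Finset.mem_filter.1 hb).2 a (Finset.mem_filter.1 ha).1
    have hex : ¬ ∃ K, K ⊆ S \ M ∧ K.card = T ∧ ∀ a ∈ K, ∀ b ∈ K, a ≠ b → r a b ∨ r b a := by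
      rintro ⟨K, hK1, hK2, hK3⟩
      by_cases hK0 : K.Nonempty
      · obtain ⟨k0, hk0, hmin⟩ : ∃ k0 ∈ K, ∀ b ∈ K, ¬ r b k0 := by
          have hwf : ∀ n, ∀ a ∈ K, (K.filter (fun b => r b a)).card ≤ n →
              ∃ k0 ∈ K, ∀ b ∈ K, ¬ r b k0 := by
            intro n
            induction n with
            | zero =>
              intro a ha hc
              refine ⟨a, ha, fun b hb hr => ?_⟩
              have : b ∈ K.filter (fun b => r b a) := Finset.mem_filter.2 ⟨hb, hr⟩
              rw [Finset.card_eq_zero.1 (Nat.le_zero.1 hc)] at this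
              exact absurd this (Finset.notMem_empty _)
            | succ n ihn =>
              intro a ha hc
              by_cases hall : ∀ b ∈ K, ¬ r b a
              · exact ⟨a, ha, hall⟩
              · push Not at hall
                obtain ⟨b, hb, hr⟩ := hall
                apply ihn b hb
                have hss : K.filter (fun c => r c b) ⊂ K.filter (fun c => r c a) := by
                  rw [Finset.ssubset_iff_of_subset]
                  · exact ⟨b, Finset.mem_filter.2 ⟨hb, hr⟩, fun h' =>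
                      hirr b (Finset.mem_filter.1 h').2⟩
                  · intro c hc'
                    rw [Finset.mem_filter] at hc' ⊢
                    exact ⟨hc'.1, htr _ _ _ hc'.2 hr⟩
                have := Finset.card_lt_card hss
                omega
          obtain ⟨a, ha⟩ := hK0
          exact hwf _ a ha le_rfl
        have hk0S := hK1 hk0
        rw [Finset.mem_sdiff] at hk0S
        have hnm : ¬ ∀ b ∈ S, ¬ r b k0 := fun h' => hk0S.2 (Finset.mem_filter.2 ⟨hk0S.1, h'⟩)
        push Not at hnm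
        obtain ⟨m, hmS, hmr⟩ := hnm
        have hmK : m ∉ K := fun h' => hmin m h' hmr
        have hmall : ∀ b ∈ K, r m b := by
          intro b hb
          by_cases hbk : b = k0
          · rw [hbk]; exact hmr
          · rcases hK3 b hb k0 hk0 hbk with h' | h'
            · exact absurd h' (hmin b hb)
            · exact htr _ _ _ hmr h'
        apply h
        refine ⟨insert m K, ?_, ?_, ?_⟩
        · intro z hz
          rw [Finset.mem_insert] at hz
          rcases hz with rfl | hz
          · exact hmS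
          · exact (Finset.mem_sdiff.1 (hK1 hz)).1
        · rw [Finset.card_insert_of_notMem hmK, hK2]
        · intro a ha b hb hab
          rw [Finset.mem_insert] at ha hb
          rcases ha with rfl | ha
          · rcases hb with rfl | hb
            · exact absurd rfl hab
            · exact Or.inl (hmall b hb)
          · rcases hb with rfl | hb
            · exact Or.inr (hmall a ha)
            · exact hK3 a ha b hb hab
      · rw [Finset.not_nonempty_iff_eq_empty] at hK0
        rw [hK0, Finset.card_empty] at hK2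
        obtain ⟨z, hz⟩ := hS
        apply h
        refine ⟨{z}, Finset.singleton_subset_iff.2 hz, by rw [Finset.card_singleton, ← hK2], ?_⟩
        intro a ha b hb hab
        rw [Finset.mem_singleton] at ha hb
        exact absurd (ha.trans hb.symm) hab
    obtain ⟨A, hA1, hA2, hA3⟩ := ih (S \ M) hex
    have hMS : M ⊆ S := Finset.filter_subset _ _
    have hcard : S.card = M.card + (S \ M).card := by
      rw [Finset.card_sdiff_of_subset hMS]
      have := Finset.card_le_card hMS
      omega
    rcases le_total M.card A.card with h' | h'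
    · refine ⟨A, hA1.trans Finset.sdiff_subset, ?_, hA3⟩
      rw [hcard]
      nlinarith
    · refine ⟨M, hMS, ?_, hM⟩
      have := Nat.mul_le_mul_left T h'
      rw [hcard]
      nlinarith

end H63

end Wn
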