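import Pool.Agent.Work.MP_959bfa_wn_helper63.SAMP

/-!
MP_959bfa_co, block THB2: every family of depth at most `w` has at least
`|J| / (C w (log w + 1)^2)` pairwise disjoint members.
-/

namespace Wn

open Finset

/-- THB2: disjoint subfamilies of families of bounded depth, polylogarithmic loss. -/
def stmt_THB2 : Prop :=
  ∃ C : ℕ, 1 ≤ C ∧ ∀ w : ℕ, 1 ≤ w → DB w (C * (Nat.log 2 w + 1) ^ 2)

namespace H63

/-- families of depth `d` and bounded degree -/
theorem sampRect (hCORN : stmt_CORN) {ι : Type} (R : ι → Bx) (B : Finset ι) (d Dl q T : ℕ)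
    (hNe : ∀ i ∈ B, Ne (R i)) (hd : DepthLe R B d)
    (hDl : ∀ i ∈ B, (fl B (fun j => ¬ Dj (R i) (R j))).card ≤ Dl) (hq : 1 ≤ q)
    (hqd : 32 * d ≤ q) (hT : 1 ≤ T) (hnum : 4 * Dl ^ 2 * d ^ T * q ≤ q ^ T) :
    ∃ A, A ⊆ B ∧ Indep R A ∧ B.card ≤ 2 * q * T * A.card := by
  classical
  obtain ⟨P, hP⟩ : ∃ P, P = fl (B ×ˢ B) (fun p => Nb R p.1 p.2) := ⟨_, rfl⟩
  obtain ⟨K, hK⟩ : ∃ K, K = fl (powersetCard T B) (fun A => ∃ x y, ∀ i ∈ A, In (R i) x y) :=
    ⟨_, rfl⟩
  have hPc : P.card ≤ 8 * d * B.card := by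
    rw [hP]
    exact hCORN ι R B d hNe hd
  have hKc : K.card ≤ B.card * (Dl ^ 2 * d ^ T) := by
    have hsub : K ⊆ B.biUnion (fun i => ((fl B (fun j => ¬ Dj (R i) (R j))) ×ˢ
        (fl B (fun j => ¬ Dj (R i) (R j)))).biUnion (fun jk =>
          powersetCard T (fl B (fun a => In (R a) (R jk.1).l (R jk.2).b)))) := by
      intro A hA
      rw [hK, mem_fl, mem_powersetCard] at hA
      obtain ⟨⟨hAB, hAT⟩, x, y, hxy⟩ := hA
      have hne : A.Nonempty := by
        rw [← Finset.card_pos, hAT]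
        omega
      obtain ⟨i, hi⟩ := hne
      obtain ⟨j, hj, hjmax⟩ := Finset.exists_max_image A (fun a => (R a).l) ⟨i, hi⟩
      obtain ⟨k, hk, hkmax⟩ := Finset.exists_max_image A (fun a => (R a).b) ⟨i, hi⟩
      rw [mem_biUnion]
      refine ⟨i, hAB hi, ?_⟩
      rw [mem_biUnion]
      refine ⟨(j, k), ?_, ?_⟩
      · rw [mem_product, mem_fl, mem_fl]
        exact ⟨⟨hAB hj, fun h => h x y ⟨hxy i hi, hxy j hj⟩⟩,
          ⟨hAB hk, fun h => h x y ⟨hxy i hi, hxy k hk⟩⟩⟩
      · rw [mem_powersetCard]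
        refine ⟨fun a ha => ?_, hAT⟩
        rw [mem_fl]
        have h1 := hxy a ha
        have h2 := hxy j hj
        have h3 := hxy k hk
        exact ⟨hAB ha, hjmax a ha, h2.1.trans h1.2.1, hkmax a ha, h3.2.2.1.trans h1.2.2.2⟩
    refine (Finset.card_le_card hsub).trans ?_
    refine (Finset.card_biUnion_le).trans ?_
    rw [Finset.card_eq_sum_ones B, Finset.sum_mul]
    apply Finset.sum_le_sum
    intro i hi
    rw [one_mul]
    refine (Finset.card_biUnion_le).trans ?_
    have hone : ∀ jk ∈ (fl B (fun j => ¬ Dj (R i) (R j))) ×ˢ (fl B (fun j => ¬ Dj (R i) (R j))),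
        (powersetCard T (fl B (fun a => In (R a) (R jk.1).l (R jk.2).b))).card ≤ d ^ T := by
      intro jk _
      rw [card_powersetCard]
      refine (Nat.choose_le_choose T (hd _ _)).trans ?_
      exact Nat.choose_le_pow d T
    refine (Finset.sum_le_sum hone).trans ?_
    rw [Finset.sum_const, smul_eq_mul, card_product]
    apply Nat.mul_le_mul_right
    rw [sq]
    exact Nat.mul_le_mul (hDl i hi) (hDl i hi)
  obtain ⟨S, hSB, hSc, hSP, hSK⟩ := samp B P K q T hq hT
    (by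
      intro a ha
      rw [hP, mem_fl, mem_product] at ha
      exact ⟨ha.1.1, ha.1.2, ha.2.1⟩)
    (by
      intro A hA
      rw [hK, mem_fl, mem_powersetCard] at hA
      exact hA.1)
    (by
      have := Nat.mul_le_mul_right B.card hqd
      nlinarith)
    (by
      have h1 : 4 * K.card * q ≤ B.card * (4 * Dl ^ 2 * d ^ T * q) := by
        have := Nat.mul_le_mul_right q hKc
        nlinarith
      have h2 := Nat.mul_le_mul_left B.card hnum
      rw [mul_comm (q ^ T)]
      exact h1.trans h2)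
  have hNeS : ∀ i ∈ S, Ne (R i) := fun i hi => hNe i (hSB hi)
  obtain ⟨A, hAS, hAc, hA⟩ := mirsky (Cr R) (fun a => Cr_irr a) (fun _ _ _ h h' => Cr_trans h h')
    T S (by
      rintro ⟨D, hDS, hDT, hD⟩
      apply hSK D _ hDS
      rw [hK, mem_fl, mem_powersetCard]
      refine ⟨⟨hDS.trans hSB, hDT⟩, ?_⟩
      have hne : D.Nonempty := by
        rw [← Finset.card_pos, hDT]
        omega
      obtain ⟨j, hj, hjmax⟩ := Finset.exists_max_image D (fun a => (R a).l) hne
      obtain ⟨k, hk, hkmax⟩ := Finset.exists_max_image D (fun a => (R a).b) hne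
      refine ⟨(R j).l, (R k).b, ?_⟩
      intro a ha
      refine ⟨hjmax a ha, ?_, hkmax a ha, ?_⟩
      · by_cases haj : a = j
        · rw [haj]; exact (hNeS j (hDS hj)).1
        · rcases hD a ha j hj haj with h | h
          · exact absurd (hjmax a ha) (not_le.2 h.1)
          · exact ((hNeS j (hDS hj)).1).trans h.2.1.le
      · by_cases hak : a = k
        · rw [hak]; exact (hNeS k (hDS hk)).2
        · rcases hD a ha k hk hak with h | h
          · exact ((hNeS k (hDS hk)).2).trans h.2.2.2.le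
          · exact absurd (hkmax a ha) (not_le.2 h.2.2.1))
  refine ⟨A, hAS.trans hSB, ?_, ?_⟩
  · intro i hi j hj hij
    by_contra hdj
    exact hSP (i, j) (by
      rw [hP, mem_fl, mem_product]
      exact ⟨⟨hSB (hAS hi), hSB (hAS hj)⟩, hij, hdj, hA i hi j hj, hA j hj i hi⟩)
      ⟨hAS hi, hAS hj⟩
  · calc B.card ≤ 2 * q * S.card := hSc
      _ ≤ 2 * q * (T * A.card) := Nat.mul_le_mul_left _ hAc
      _ = 2 * q * T * A.card := by ring

theorem pigeon {ι : Type} (S : Finset ι) (f : ι → ℕ) (n : ℕ) (hf : ∀ i ∈ S, f i < n)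
    (hn : 1 ≤ n) : ∃ c, S.card ≤ n * (fl S (fun i => f i = c)).card := by
  classical
  by_contra hcon
  push Not at hcon
  have h1 : S.card = ∑ c ∈ range n, (fl S (fun i => f i = c)).card := by
    have := Finset.card_eq_sum_card_fiberwise (s := S) (t := range n) (f := f)
      (fun i hi => by simpa using hf i hi)
    rw [this]
    apply Finset.sum_congr rfl
    intro c _
    congr 1
    ext i
    rw [mem_fl, Finset.mem_filter]
  have h2 : n * S.card < n * S.card := by
    calc n * S.card = ∑ c ∈ range n, n * (fl S (fun i => f i = c)).card := by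
          rw [← Finset.mul_sum, ← h1]
      _ < ∑ _c ∈ range n, S.card := Finset.sum_lt_sum_of_nonempty
          (Finset.nonempty_range_iff.2 (by omega)) (fun c _ => hcon c)
      _ = n * S.card := by rw [Finset.sum_const, card_range, smul_eq_mul]
  exact lt_irrefl _ h2

/-- the two parameters of a member -/
theorem params {ι : Type} (R : ι → Bx) (J : Finset ι) (w : ℕ) (hNe : ∀ i ∈ J, Ne (R i))
    (hd : DepthLe R J w) (i : ι) (hi : i ∈ J) :
    ∃ m e : ℕ, PV R J m i ∧ ¬ PV R J (m - 1) i ∧ 1 ≤ m ∧ m ≤ w ∧ QH R J e i ∧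
      ¬ QH R J (e + 1) i ∧ e < m := by
  classical
  have hself : ∀ x y, In (R i) x y → i ∈ fl J (fun j => In (R j) x y ∧ ¬ Cr R j i) :=
    fun x y h => mem_fl.2 ⟨hi, h, Cr_irr i⟩
  have hle : ∀ x y, (fl J (fun j => In (R j) x y ∧ ¬ Cr R j i)).card ≤ w := by
    intro x y
    refine (Finset.card_le_card ?_).trans (hd x y)
    intro j hj
    rw [mem_fl] at hj ⊢
    exact ⟨hj.1, hj.2.1⟩
  have hex : ∃ m, PV R J m i :=
    ⟨w, (R i).l, le_rfl, (hNe i hi).1, fun y _ _ => hle _ y⟩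
  have hmin := fun m => Nat.find_min (m := m) hex
  have hspec := Nat.find_spec hex
  have hmw : Nat.find hex ≤ w :=
    Nat.find_min' hex ⟨(R i).l, le_rfl, (hNe i hi).1, fun y _ _ => hle _ y⟩
  have hm1 : 1 ≤ Nat.find hex := by
    rw [Nat.one_le_iff_ne_zero]
    intro h0
    rw [h0] at hspec
    obtain ⟨x, hx1, hx2, hx3⟩ := hspec
    have h1 := hx3 (R i).b le_rfl (hNe i hi).2
    have h2 := hself x (R i).b ⟨hx1, hx2, le_rfl, (hNe i hi).2⟩
    rw [Finset.card_eq_zero.1 (Nat.le_zero.1 h1)] at h2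
    exact Finset.notMem_empty _ h2
  -- flats are counted by PV
  have hlt : ∀ m e, PV R J m i → QH R J e i → e < m := by
    rintro m e ⟨x, hx1, hx2, hx3⟩ ⟨y, hy1, hy2, hy3⟩
    have h1 := hx3 y hy1 hy2
    have h2 : insert i (fl J (fun j => Cr R i j ∧ (R j).b ≤ y ∧ y ≤ (R j).t)) ⊆
        fl J (fun j => In (R j) x y ∧ ¬ Cr R j i) := by
      intro j hj
      rw [Finset.mem_insert] at hj
      rcases hj with rfl | hj
      · exact hself x y ⟨hx1, hx2, hy1, hy2⟩
      · rw [mem_fl] at hj ⊢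
        obtain ⟨hjJ, hc, hyb, hyt⟩ := hj
        exact ⟨hjJ, ⟨(hc.1.le).trans hx1, hx2.trans hc.2.1.le, hyb, hyt⟩,
          fun h => Cr_irr i (Cr_trans hc h)⟩
    have h3 := Finset.card_le_card h2
    rw [Finset.card_insert_of_notMem (fun h => Cr_irr i (mem_fl.1 h).2.1)] at h3
    omega
  have hQ0 : QH R J 0 i := ⟨(R i).b, le_rfl, (hNe i hi).2, Nat.zero_le _⟩
  have hQe : QH R J (Nat.findGreatest (fun h => QH R J h i) w) i :=
    Nat.findGreatest_spec (P := fun h => QH R J h i) (Nat.zero_le w) hQ0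
  have hew := hlt _ _ hspec hQe
  refine ⟨Nat.find hex, Nat.findGreatest (fun h => QH R J h i) w, hspec, ?_, hm1, hmw, hQe, ?_,
    hew⟩
  · exact hmin _ (by omega)
  · exact Nat.findGreatest_is_greatest (P := fun h => QH R J h i) (n := w) (Nat.lt_succ_self _)
      (by omega)

end H63

open H63 in
theorem THB2 (hCORN : stmt_CORN) (hRED : stmt_RED) (hLEM1 : stmt_LEM1) (hCOM : stmt_COM) :
    stmt_THB2 := by
  classical
  refine ⟨43008, by norm_num, ?_⟩
  intro w hw ι R J hNe hd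
  obtain ⟨J', hJ', hJc, hNb⟩ := hRED ι R J w hNe hd
  have hNe' : ∀ i ∈ J', Ne (R i) := fun i hi => hNe i (hJ' hi)
  have hd' : DepthLe R J' w := by
    intro x y
    refine (Finset.card_le_card ?_).trans (hd x y)
    intro j hj
    rw [mem_fl] at hj ⊢
    exact ⟨hJ' hj.1, hj.2⟩
  have hpar : ∀ i, ∃ m e : ℕ, i ∈ J' → (PV R J' m i ∧ ¬ PV R J' (m - 1) i ∧ 1 ≤ m ∧ m ≤ w ∧
      QH R J' e i ∧ ¬ QH R J' (e + 1) i ∧ e < m) := by
    intro i
    by_cases hi : i ∈ J'
    · obtain ⟨m, e, h⟩ := params R J' w hNe' hd' i hi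
      exact ⟨m, e, fun _ => h⟩
    · exact ⟨0, 0, fun h => absurd h hi⟩
  choose m e hme using hpar
  -- popular scale
  obtain ⟨a, ha⟩ := pigeon J' (fun i => Nat.log 2 (m i - e i)) (Nat.log 2 w + 1)
    (fun i hi => by
      have h := hme i hi
      have : Nat.log 2 (m i - e i) ≤ Nat.log 2 w := Nat.log_mono_right (by omega)
      omega) (by omega)
  obtain ⟨C, hC⟩ : ∃ C, C = fl J' (fun i => Nat.log 2 (m i - e i) = a) := ⟨_, rfl⟩
  rw [← hC] at ha
  obtain ⟨s, hs⟩ : ∃ s, s = 2 ^ a := ⟨_, rfl⟩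
  have hs1 : 1 ≤ s := by rw [hs]; exact Nat.one_le_two_pow
  have hCJ : C ⊆ J' := by rw [hC]; exact fl_subset _ _
  have hCs : ∀ i ∈ C, s ≤ m i - e i ∧ m i - e i < 2 * s := by
    intro i hi
    have hi' := hCJ hi
    rw [hC, mem_fl] at hi
    have h := hme i hi'
    have h1 := Nat.pow_log_le_self 2 (x := m i - e i) (by omega)
    have h2 := Nat.lt_pow_succ_log_self (b := 2) (by norm_num) (m i - e i)
    rw [hi.2] at h1 h2
    rw [hs]
    refine ⟨h1, ?_⟩
    rw [pow_succ] at h2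
    omega
  -- blocks
  obtain ⟨g, hg⟩ : ∃ g, g = (s + 1) / 2 := ⟨_, rfl⟩
  have hg1 : 1 ≤ g := by omega
  obtain ⟨t, ht⟩ := pigeon C (fun i => m i / g) (w / g + 1)
    (fun i hi => by
      have h := hme i (hCJ hi)
      have : m i / g ≤ w / g := Nat.div_le_div_right h.2.2.2.1
      exact Nat.lt_succ_of_le this) (Nat.le_add_left 1 _)
  obtain ⟨B, hB⟩ : ∃ B, B = fl C (fun i => m i / g = t) := ⟨_, rfl⟩
  rw [← hB] at ht
  have hBC : B ⊆ C := by rw [hB]; exact fl_subset _ _
  have hBJ : B ⊆ J' := hBC.trans hCJ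
  by_cases hBe : B.card = 0
  · -- then J is empty
    rw [hBe, mul_zero] at ht
    have hC0 : C.card = 0 := by omega
    rw [hC0, mul_zero] at ha
    refine ⟨∅, Finset.empty_subset _, fun i hi => absurd hi (Finset.notMem_empty _), ?_⟩
    rw [Finset.card_empty]
    omega
  have hBm : ∀ i ∈ B, t * g ≤ m i ∧ m i ≤ t * g + g - 1 := by
    intro i hi
    rw [hB, mem_fl] at hi
    have h1 := Nat.div_mul_le_self (m i) g
    have h2 := Nat.lt_div_mul_add (a := m i) (b := g) (by omega)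
    rw [hi.2] at h1 h2
    omega
  have hsw : s ≤ w := by
    obtain ⟨i, hi⟩ := Finset.card_pos.1 (Nat.pos_of_ne_zero hBe)
    have h1 := hCs i (hBC hi)
    have h2 := hme i (hBJ hi)
    omega
  -- depth of B
  have hdB : DepthLe R B (12 * s) := by
    intro x y
    have h1 := hLEM1 ι R J' (t * g + g - 1) (t * g + 1 - 2 * s) hNe' x y
    refine (Finset.card_le_card ?_).trans (h1.trans ?_)
    · intro i hi
      rw [mem_fl] at hi
      have hiJ := hBJ hi.1
      obtain ⟨h2, -, -, -, h3, -, -⟩ := hme i hiJ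
      have h4 := hBm i hi.1
      have h5 := hCs i (hBC hi.1)
      rw [mem_fl]
      refine ⟨hiJ, ?_, ?_, hi.2⟩
      · obtain ⟨x', hx1, hx2, hx3⟩ := h2
        exact ⟨x', hx1, hx2, fun y' hy1 hy2 => (hx3 y' hy1 hy2).trans h4.2⟩
      · obtain ⟨y', hy1, hy2, hy3⟩ := h3
        exact ⟨y', hy1, hy2, le_trans (by omega) hy3⟩
    · omega
  -- degrees in B
  have hdeg : ∀ i ∈ B, (fl B (fun j => ¬ Dj (R i) (R j))).card ≤ 273 * w ^ 2 := by
    intro i hi
    have hcross : ∀ i ∈ B, ∀ j ∈ B, Cr R i j → ∃ k ∈ J', Nb R i k ∧ Nb R j k := by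
      intro i hi j hj hc
      have h := hCOM ι R J' (m j - 1) (e i) i j (hBJ hi) (hBJ hj) (hNe' i (hBJ hi))
        (hNe' j (hBJ hj)) hc (hme j (hBJ hj)).2.1 (hme i (hBJ hi)).2.2.2.2.2.1
      have h1 := hBm i hi
      have h2 := hBm j hj
      have h3 := hCs i (hBC hi)
      have h4 := (hme j (hBJ hj)).2.2.1
      have h5 : 1 ≤ (fl J' (fun k => Nb R i k ∧ Nb R j k)).card := by omega
      obtain ⟨k, hk⟩ := Finset.card_pos.1 h5
      rw [mem_fl] at hk
      exact ⟨k, hk⟩
    have hsub : fl B (fun j => ¬ Dj (R i) (R j)) ⊆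
        insert i (fl J' (fun k => Nb R i k) ∪
          (fl J' (fun k => Nb R i k)).biUnion (fun k => fl J' (fun j => Nb R k j))) := by
      intro j hj
      rw [mem_fl] at hj
      rw [Finset.mem_insert, Finset.mem_union]
      by_cases hij : j = i
      · exact Or.inl hij
      right
      by_cases hc1 : Cr R i j
      · right
        obtain ⟨k, hk, hk1, hk2⟩ := hcross i hi j hj.1 hc1
        rw [mem_biUnion]
        exact ⟨k, mem_fl.2 ⟨hk, hk1⟩, mem_fl.2 ⟨hBJ hj.1, Nb_symm hk2⟩⟩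
      by_cases hc2 : Cr R j i
      · right
        obtain ⟨k, hk, hk1, hk2⟩ := hcross j hj.1 i hi hc2
        rw [mem_biUnion]
        exact ⟨k, mem_fl.2 ⟨hk, hk2⟩, mem_fl.2 ⟨hBJ hj.1, Nb_symm hk1⟩⟩
      left
      exact mem_fl.2 ⟨hBJ hj.1, fun h => hij h.symm, hj.2, hc1, hc2⟩
    refine (Finset.card_le_card hsub).trans ?_
    refine (Finset.card_insert_le _ _).trans ?_
    have h1 := Finset.card_union_le (fl J' (fun k => Nb R i k))
      ((fl J' (fun k => Nb R i k)).biUnion (fun k => fl J' (fun j => Nb R k j)))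
    have h2 := hNb i (hBJ hi)
    have h3 : ((fl J' (fun k => Nb R i k)).biUnion (fun k => fl J' (fun j => Nb R k j))).card ≤
        16 * w * (16 * w) := by
      refine (Finset.card_biUnion_le).trans ?_
      refine (Finset.sum_le_sum (g := fun _ => 16 * w) ?_).trans ?_
      · intro k hk
        exact hNb k (mem_fl.1 hk).1
      · rw [Finset.sum_const, smul_eq_mul]
        exact Nat.mul_le_mul_right _ h2
    nlinarith
  -- numbers
  obtain ⟨l, hl⟩ : ∃ l, l = Nat.log 2 w := ⟨_, rfl⟩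
  rw [← hl] at ha ⊢
  have hwl : w < 2 ^ (l + 1) := by
    rw [hl]
    exact Nat.lt_pow_succ_log_self (by norm_num) w
  have hnum : 4 * (273 * w ^ 2) ^ 2 * (12 * s) ^ (l + 7) * (384 * s) ≤ (384 * s) ^ (l + 7) := by
    have e1 : (384 * s) ^ (l + 7) = 32 ^ (l + 7) * (12 * s) ^ (l + 7) := by
      rw [← mul_pow]
      congr 1
      ring
    rw [e1]
    have e2 : 4 * (273 * w ^ 2) ^ 2 * (384 * s) ≤ 32 ^ (l + 7) := by
      calc 4 * (273 * w ^ 2) ^ 2 * (384 * s) ≤ 4 * (273 * w ^ 2) ^ 2 * (384 * w) := by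
            apply Nat.mul_le_mul_left
            omega
        _ = 114476544 * w ^ 5 := by ring
        _ ≤ 2 ^ 27 * (2 ^ (l + 1)) ^ 5 := by
            apply Nat.mul_le_mul (by norm_num)
            exact Nat.pow_le_pow_left hwl.le 5
        _ = 2 ^ (5 * l + 32) := by
            rw [← pow_mul, ← pow_add]
            congr 1
            ring
        _ ≤ 2 ^ (5 * (l + 7)) := Nat.pow_le_pow_right (by norm_num) (by omega)
        _ = 32 ^ (l + 7) := by
            rw [pow_mul]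
            norm_num
    calc 4 * (273 * w ^ 2) ^ 2 * (12 * s) ^ (l + 7) * (384 * s)
        = (4 * (273 * w ^ 2) ^ 2 * (384 * s)) * (12 * s) ^ (l + 7) := by ring
      _ ≤ 32 ^ (l + 7) * (12 * s) ^ (l + 7) := Nat.mul_le_mul_right _ e2
  obtain ⟨A, hAB, hAI, hAc⟩ := sampRect hCORN R B (12 * s) (273 * w ^ 2) (384 * s) (l + 7)
    (fun i hi => hNe' i (hBJ hi)) hdB hdeg (by omega) (by omega) (by omega) hnum
  refine ⟨A, hAB.trans (hBJ.trans hJ'), hAI, ?_⟩
  have hwg : (w / g + 1) * g ≤ 2 * w := by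
    have := Nat.div_mul_le_self w g
    have h2 : (w / g + 1) * g = w / g * g + g := by ring
    have h3 : g ≤ w := by omega
    omega
  have h1 : s * J.card ≤ s * (43008 * (l + 1) ^ 2 * w * A.card) := by
    calc s * J.card ≤ (2 * g) * (2 * J'.card) := Nat.mul_le_mul (by omega) hJc
      _ ≤ (2 * g) * (2 * ((l + 1) * C.card)) := by
          apply Nat.mul_le_mul_left
          apply Nat.mul_le_mul_left
          exact ha
      _ ≤ (2 * g) * (2 * ((l + 1) * ((w / g + 1) * B.card))) := by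
          apply Nat.mul_le_mul_left
          apply Nat.mul_le_mul_left
          apply Nat.mul_le_mul_left
          exact ht
      _ = 4 * (l + 1) * B.card * ((w / g + 1) * g) := by ring
      _ ≤ 4 * (l + 1) * B.card * (2 * w) := Nat.mul_le_mul_left _ hwg
      _ = 8 * (l + 1) * w * B.card := by ring
      _ ≤ 8 * (l + 1) * w * (2 * (384 * s) * (l + 7) * A.card) := Nat.mul_le_mul_left _ hAc
      _ = s * (6144 * (l + 1) * w * A.card * (l + 7)) := by ring
      _ ≤ s * (6144 * (l + 1) * w * A.card * (7 * (l + 1))) := by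
          apply Nat.mul_le_mul_left
          apply Nat.mul_le_mul_left
          omega
      _ = s * (43008 * (l + 1) ^ 2 * w * A.card) := by ring
  exact Nat.le_of_mul_le_mul_left h1 (by omega)

end Wn
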